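import Pool.Agent.H98.EX.WTargets
import Pool.Agent.H98.SLN.INR

/-!
# Row HFD of the board exa_modules (helper73)
-/

set_option autoImplicit false

open MeasureTheory ProbabilityTheory Filter Topology
open scoped ENNReal
open Pool.Agent.H95 Pool.Agent.H95.Cop
open Pool.Agent.H55.CG (Mo)
open Pool.Agent.H98.EX

namespace Pool.Agent.H73.EX

lemma meas_H (a b : ℕ) : Measurable (fun x : ℕ → ℝ => H x a b) := by
  unfold H
  exact Finset.measurable_sum _ fun i _ => measurable_pi_apply i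

lemma meas_VR (n : ℕ) : Measurable (fun x : ℕ → ℝ => VR n x) := by
  unfold VR
  exact Finset.measurable_sum _ fun i _ => Real.measurable_exp.comp (meas_H 0 (i + 1)).neg

lemma VR_nonneg (n : ℕ) (y : ℕ → ℝ) : 0 ≤ VR n y :=
  Finset.sum_nonneg fun i _ => (Real.exp_pos _).le

lemma VR_succ (n : ℕ) (y : ℕ → ℝ) : VR (n + 1) y = VR n y + Real.exp (-H y 0 (n + 1)) := by
  unfold VR
  rw [Finset.sum_range_succ]

lemma rpow_diff_le {V b q u : ℝ} (hV : 1 ≤ V) (hb : 0 < b) (hq : 0 ≤ q) (hu1 : u ≤ 1)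
    (hu0 : 0 < u) : V ^ (-q) - (V + b) ^ (-q) ≤ max 1 q * b ^ u := by
  have hV0 : 0 < V := by linarith
  have hVq : V ^ (-q) ≤ 1 := Real.rpow_le_one_of_one_le_of_nonpos hV (by linarith)
  have hVq0 : 0 < V ^ (-q) := Real.rpow_pos_of_pos hV0 _
  have hW0 : 0 < (V + b) ^ (-q) := Real.rpow_pos_of_pos (by linarith) _
  have hbu0 : 0 < b ^ u := Real.rpow_pos_of_pos hb _
  have hm1 : (1 : ℝ) ≤ max 1 q := le_max_left _ _
  have hmq : q ≤ max 1 q := le_max_right _ _
  rcases le_or_gt 1 b with h | h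
  · have h1 : 1 ≤ b ^ u := Real.one_le_rpow h hu0.le
    nlinarith
  · have h1 : b ≤ b ^ u := by
      have := Real.rpow_le_rpow_of_exponent_ge hb h.le hu1
      rwa [Real.rpow_one] at this
    have h2 : (V + b) ^ (-q) = V ^ (-q) * (1 + b / V) ^ (-q) := by
      rw [← Real.mul_rpow hV0.le (by positivity)]
      congr 1
      field_simp
    have h3 : 1 - q * (b / V) ≤ (1 + b / V) ^ (-q) := by
      have hbV : 0 < b / V := div_pos hb hV0
      rw [Real.rpow_def_of_pos (by linarith)]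
      have h4 := Real.add_one_le_exp (Real.log (1 + b / V) * -q)
      have h5 : Real.log (1 + b / V) ≤ b / V := by
        have := Real.log_le_sub_one_of_pos (show 0 < 1 + b / V by linarith)
        linarith
      nlinarith
    have h6 : b / V ≤ b := div_le_self hb.le hV
    have h7 : V ^ (-q) - (V + b) ^ (-q) ≤ q * (b / V) := by
      rw [h2]
      have h8 : 0 ≤ q * (b / V) := by positivity
      nlinarith
    calc V ^ (-q) - (V + b) ^ (-q) ≤ q * (b / V) := h7
      _ ≤ q * b := mul_le_mul_of_nonneg_left h6 hq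
      _ ≤ max 1 q * b := mul_le_mul_of_nonneg_right hmq hb.le
      _ ≤ max 1 q * b ^ u := mul_le_mul_of_nonneg_left h1 (by linarith)

lemma integrable_VR (ϱ : Measure ℝ) [IsProbabilityMeasure ϱ] (n : ℕ) {q : ℝ} (hq : 0 ≤ q) :
    Integrable (fun y : ℕ → ℝ => (1 + VR n y) ^ (-q)) (iid ϱ) := by
  have hm : Measurable (fun y : ℕ → ℝ => (1 + VR n y) ^ (-q)) :=
    ((meas_VR n).const_add 1).pow_const _
  refine Integrable.mono' (integrable_const (1 : ℝ)) hm.aestronglyMeasurable ?_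
  refine Eventually.of_forall fun y => ?_
  have h1 := VR_nonneg n y
  rw [Real.norm_eq_abs, abs_of_nonneg (Real.rpow_nonneg (by linarith) _)]
  exact Real.rpow_le_one_of_one_le_of_nonpos (by linarith) (by linarith)

lemma integrable_expH (ϱ : Measure ℝ) [IsProbabilityMeasure ϱ]
    (hexp : ∀ t : ℝ, Integrable (fun z => Real.exp (t * z)) ϱ) (u : ℝ) (n : ℕ) :
    Integrable (fun y : ℕ → ℝ => Real.exp (u * H y 0 n)) (iid ϱ) ∧
      ∫ y : ℕ → ℝ, Real.exp (u * H y 0 n) ∂(iid ϱ) = Mo ϱ u ^ n := by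
  have hl := Pool.Agent.H98.SLN.lint_exp_u ϱ hexp u n
  have hm : Measurable (fun y : ℕ → ℝ => Real.exp (u * H y 0 n)) :=
    Real.measurable_exp.comp ((meas_H 0 n).const_mul u)
  have h0 : 0 ≤ᵐ[iid ϱ] fun y : ℕ → ℝ => Real.exp (u * H y 0 n) :=
    Eventually.of_forall fun y => (Real.exp_pos _).le
  have hMo : 0 ≤ Mo ϱ u := integral_nonneg fun z => (Real.exp_pos _).le
  constructor
  · refine ⟨hm.aestronglyMeasurable, ?_⟩
    rw [hasFiniteIntegral_iff_ofReal h0, hl]
    exact ENNReal.ofReal_lt_top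
  · rw [integral_eq_lintegral_of_nonneg_ae h0 hm.aestronglyMeasurable, hl,
      ENNReal.toReal_ofReal (pow_nonneg hMo n)]

theorem pf_HFD : T_HFD := by
  intro ϱ _ hexp q u n hq hu0 hu1
  unfold hh
  rw [← integral_sub (integrable_VR ϱ n hq) (integrable_VR ϱ (n + 1) hq)]
  obtain ⟨hi, he⟩ := integrable_expH ϱ hexp (-u) (n + 1)
  rw [← he, ← integral_const_mul]
  refine integral_mono ((integrable_VR ϱ n hq).sub (integrable_VR ϱ (n + 1) hq))
    (hi.const_mul _) fun y => ?_
  have h1 := VR_nonneg n y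
  have h2 := rpow_diff_le (V := 1 + VR n y) (b := Real.exp (-H y 0 (n + 1))) (q := q) (u := u)
    (by linarith) (Real.exp_pos _) hq hu1 hu0
  have h3 : Real.exp (-H y 0 (n + 1)) ^ u = Real.exp (-u * H y 0 (n + 1)) := by
    rw [← Real.exp_mul]
    congr 1
    ring
  rw [h3] at h2
  simp only [VR_succ, ← add_assoc]
  exact h2

end Pool.Agent.H73.EX
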