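import Pool.Agent.H98.EX.WTargets
import Pool.Agent.H98.EX.BTargets

/-!
# Row CHX of the board exa_modules (helper73)
-/

set_option autoImplicit false

open MeasureTheory ProbabilityTheory Filter Topology
open scoped ENNReal
open Pool.Agent.H95 Pool.Agent.H95.Cop
open Pool.Agent.H55.CG (Mo)
open Pool.Agent.H98.EX

namespace Pool.Agent.H73.EX

lemma pow7_le {g : ℝ} (h0 : 0 ≤ g) (h1 : g ≤ 1) : (1 + g) ^ 7 ≤ 1 + 127 * g := by
  have a2 : g ^ 2 ≤ g := pow_le_of_le_one h0 h1 (by norm_num)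
  have a3 : g ^ 3 ≤ g := pow_le_of_le_one h0 h1 (by norm_num)
  have a4 : g ^ 4 ≤ g := pow_le_of_le_one h0 h1 (by norm_num)
  have a5 : g ^ 5 ≤ g := pow_le_of_le_one h0 h1 (by norm_num)
  have a6 : g ^ 6 ≤ g := pow_le_of_le_one h0 h1 (by norm_num)
  have a7 : g ^ 7 ≤ g := pow_le_of_le_one h0 h1 (by norm_num)
  have e : (1 + g) ^ 7 = 1 + 7 * g + 21 * g ^ 2 + 35 * g ^ 3 + 35 * g ^ 4 + 21 * g ^ 5 +
      7 * g ^ 6 + g ^ 7 := by ring
  linarith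

lemma exp_sub_one_le {y : ℝ} (h0 : 0 ≤ y) (h1 : y ≤ 1) : Real.exp y - 1 ≤ 2 * y := by
  have := Real.abs_exp_sub_one_le (x := y) (by rw [abs_of_nonneg h0]; exact h1)
  rw [abs_of_nonneg (by have := Real.add_one_le_exp y; linarith), abs_of_nonneg h0] at this
  exact this

/-- the algebra of the last step -/
lemma chx_alg {ϑ ω Q A m g ρ0 : ℝ} (hϑ : 0 < ϑ) (hω : 0 ≤ ω) (hωg : ω ≤ g) (hϑg : 8 * ϑ ≤ g)
    (hm : 0 < m) (hA : 0 ≤ A) (hAg : A ≤ 1 + g)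
    (hQ : Q ≤ (Real.sqrt (ϑ / (8 * Real.pi)) * A) ^ 2)
    (hρ : ρ0 = 1 / (8 * Real.sqrt 2 * Real.pi * m ^ 2)) :
    (1 + 8 * ϑ) * (1 + ϑ) ^ 3 * (1 / Real.sqrt 2) * (Q * ad ϑ ω / (ϑ ^ 2 / 4 * m ^ 2)) ≤
      (1 + g) ^ 7 * ρ0 := by
  have hpi := Real.pi_pos
  have hs2 : 0 < Real.sqrt 2 := Real.sqrt_pos.mpr (by norm_num)
  have hg : 0 ≤ g := by linarith
  have h1 : (Real.sqrt (ϑ / (8 * Real.pi)) * A) ^ 2 = ϑ / (8 * Real.pi) * A ^ 2 := by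
    rw [mul_pow, Real.sq_sqrt (by positivity)]
  rw [h1] at hQ
  have hA2 : A ^ 2 ≤ (1 + g) ^ 2 := pow_le_pow_left₀ hA hAg 2
  have had : 0 ≤ ad ϑ ω := by unfold ad; positivity
  have h2 : Q * ad ϑ ω / (ϑ ^ 2 / 4 * m ^ 2) ≤
      ϑ / (8 * Real.pi) * (1 + g) ^ 2 * (ϑ / 4 * (1 + g)) / (ϑ ^ 2 / 4 * m ^ 2) := by
    apply div_le_div_of_nonneg_right _ (by positivity)
    have h3 : Q ≤ ϑ / (8 * Real.pi) * (1 + g) ^ 2 :=
      hQ.trans (mul_le_mul_of_nonneg_left hA2 (by positivity))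
    have h4 : ad ϑ ω ≤ ϑ / 4 * (1 + g) := by
      unfold ad
      exact mul_le_mul_of_nonneg_left (by linarith) (by positivity)
    exact mul_le_mul h3 h4 had (by positivity)
  have h5 : ϑ / (8 * Real.pi) * (1 + g) ^ 2 * (ϑ / 4 * (1 + g)) / (ϑ ^ 2 / 4 * m ^ 2) =
      (1 + g) ^ 3 * (1 / (8 * Real.pi * m ^ 2)) := by
    field_simp
  rw [h5] at h2
  have h6 : (1 + 8 * ϑ) * (1 + ϑ) ^ 3 ≤ (1 + g) ^ 4 := by
    have h7 : (1 + ϑ) ^ 3 ≤ (1 + g) ^ 3 := pow_le_pow_left₀ (by linarith) (by linarith) 3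
    calc (1 + 8 * ϑ) * (1 + ϑ) ^ 3 ≤ (1 + g) * (1 + g) ^ 3 :=
          mul_le_mul (by linarith) h7 (by positivity) (by linarith)
      _ = (1 + g) ^ 4 := by ring
  calc (1 + 8 * ϑ) * (1 + ϑ) ^ 3 * (1 / Real.sqrt 2) * (Q * ad ϑ ω / (ϑ ^ 2 / 4 * m ^ 2))
      ≤ (1 + 8 * ϑ) * (1 + ϑ) ^ 3 * (1 / Real.sqrt 2) *
        ((1 + g) ^ 3 * (1 / (8 * Real.pi * m ^ 2))) :=
        mul_le_mul_of_nonneg_left h2 (by positivity)
    _ ≤ (1 + g) ^ 4 * (1 / Real.sqrt 2) * ((1 + g) ^ 3 * (1 / (8 * Real.pi * m ^ 2))) := by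
        apply mul_le_mul_of_nonneg_right _ (by positivity)
        exact mul_le_mul_of_nonneg_right h6 (by positivity)
    _ = (1 + g) ^ 7 * ρ0 := by
        rw [hρ]
        field_simp

theorem pf_CHX (hQQB : T_QQB) (hWBA : T_WBA) : T_CHX := by
  intro kp hkp
  have hpi := Real.pi_pos
  have hs2 : 0 < Real.sqrt 2 := Real.sqrt_pos.mpr (by norm_num)
  have hbase : 0 < 8 * Real.sqrt 2 * Real.pi := by positivity
  have hks : 0 < ks := Real.rpow_pos_of_pos hbase _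
  have hks2 : ks ^ 2 = 1 / (8 * Real.sqrt 2 * Real.pi) := by
    unfold ks
    rw [← Real.rpow_natCast, ← Real.rpow_mul hbase.le]
    norm_num
    rw [Real.rpow_neg_one]
    field_simp
  have hkp0 : 0 < kp := hks.trans hkp
  set ς : ℝ := min (2 * (kp - ks)) kp with hς
  have hς0 : 0 < ς := lt_min (by linarith) hkp0
  have hςk : ς ≤ kp := min_le_right _ _
  have hςm : ς ≤ 2 * (kp - ks) := min_le_left _ _
  set m : ℝ := kp - ς / 4 with hm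
  have hmks : ks < m := by rw [hm]; linarith
  have hm0 : 0 < m := hks.trans hmks
  set ρ0 : ℝ := 1 / (8 * Real.sqrt 2 * Real.pi * m ^ 2) with hρ0
  have hρpos : 0 < ρ0 := by positivity
  have hρ1 : ρ0 < 1 := by
    have h1 : ρ0 = ks ^ 2 / m ^ 2 := by
      rw [hks2, hρ0]
      field_simp
    rw [h1, div_lt_one (by positivity)]
    exact pow_lt_pow_left₀ hmks hks.le (by norm_num)
  set δ0 : ℝ := min ((1 - ρ0) / 8) (1 / 8) with hδ0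
  have hδ0p : 0 < δ0 := lt_min (by linarith) (by norm_num)
  have hδ01 : δ0 ≤ 1 / 8 := min_le_right _ _
  have hδ02 : δ0 ≤ (1 - ρ0) / 8 := min_le_left _ _
  -- the factor `g`
  set g : ℝ := min 1 ((1 - ρ0) / (254 * ρ0)) with hg
  have hg0 : 0 < g := lt_min one_pos (div_pos (by linarith) (by positivity))
  have hg1 : g ≤ 1 := min_le_left _ _
  have hg2 : g ≤ (1 - ρ0) / (254 * ρ0) := min_le_right _ _
  have hfin : (1 + g) ^ 7 * ρ0 ≤ 1 - 4 * δ0 := by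
    have h1 := pow7_le hg0.le hg1
    have h2 : g * ρ0 ≤ (1 - ρ0) / 254 := by
      have := mul_le_mul_of_nonneg_right hg2 hρpos.le
      have e : (1 - ρ0) / (254 * ρ0) * ρ0 = (1 - ρ0) / 254 := by field_simp
      rw [e] at this
      exact this
    have h3 : (1 + g) ^ 7 * ρ0 ≤ (1 + 127 * g) * ρ0 := mul_le_mul_of_nonneg_right h1 hρpos.le
    nlinarith
  obtain ⟨Q, ϑ0, hϑ0, hQ⟩ := hQQB (g / 2) (by linarith)
  set s : ℝ := min (g ^ 2 / 5000) (ϑ0 / 2) with hs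
  have hs0 : 0 < s := lt_min (by positivity) (by linarith)
  have hsg : s ≤ g ^ 2 / 5000 := min_le_left _ _
  have hsϑ : s ≤ ϑ0 / 2 := min_le_right _ _
  have hg21 : g ^ 2 ≤ g := pow_le_of_le_one hg0.le hg1 (by norm_num)
  have hs1 : s ≤ 1 / 5000 := by linarith
  have hsg1 : 5000 * s ≤ g := by linarith
  set ϑ : ℝ := s ^ 2 with hϑ
  have hϑp : 0 < ϑ := by positivity
  have hϑs : ϑ ≤ s / 5000 := by rw [hϑ]; nlinarith
  have hsqrt : Real.sqrt ϑ = s := by rw [hϑ]; exact Real.sqrt_sq hs0.le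
  have hrpow : ϑ ^ (-(3 / 2) : ℝ) = (s ^ 3)⁻¹ := by
    rw [hϑ, ← Real.rpow_natCast s 2, ← Real.rpow_mul hs0.le, ← Real.rpow_natCast s 3,
      ← Real.rpow_neg hs0.le]
    norm_num
  set R : ℕ := ⌈ϑ ^ (-(3 / 2) : ℝ)⌉₊ with hR
  have hR1 : ϑ ^ (-(3 / 2) : ℝ) ≤ R := Nat.le_ceil _
  have hs3 : 0 < s ^ 3 := by positivity
  have hs3' : s ^ 3 ≤ 1 / 5000 := by
    have : s ^ 3 ≤ s := pow_le_of_le_one hs0.le (by linarith) (by norm_num)
    linarith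
  have hinv : 5000 ≤ (s ^ 3)⁻¹ := by
    rw [le_inv_comm₀ (by norm_num) hs3]
    linarith
  have hR2 : (R : ℝ) + 1 ≤ 2 * (s ^ 3)⁻¹ := by
    have h1 : (R : ℝ) < ϑ ^ (-(3 / 2) : ℝ) + 1 :=
      Nat.ceil_lt_add_one (Real.rpow_nonneg hϑp.le _)
    rw [hrpow] at h1
    linarith
  have hR3 : 2 ≤ R := by
    have h1 : (2 : ℝ) ≤ R := by rw [hrpow] at hR1; linarith
    exact_mod_cast h1
  obtain ⟨τ0, hτ0, hτ⟩ := hQ ϑ hϑp (by linarith) R hR1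
  set τ1 : ℝ := min τ0 (ϑ ^ 2) with hτ1
  have hτ1p : 0 < τ1 := lt_min hτ0 (by positivity)
  have hτ1a : τ1 ≤ τ0 := min_le_left _ _
  have hτ1b : τ1 ≤ ϑ ^ 2 := min_le_right _ _
  refine ⟨ς, δ0, ϑ, 8 * s, τ1, R, Q, hς0, hςk, hδ0p, by linarith, hϑp, by linarith,
    by linarith, by linarith, by linarith, hR3, hτ1p, ?_⟩
  intro ρ _ hexp hMo θ τ hθ hτp hτl
  refine ⟨sq_nonneg _, ?_⟩
  have hϑ2 : ϑ ^ 2 ≤ 1 / 2 := by
    have : ϑ ^ 2 ≤ ϑ := pow_le_of_le_one hϑp.le (by linarith) (by norm_num)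
    linarith
  have hθ1 : 0 ≤ 1 - θ := by
    have := abs_le.mp hθ
    linarith [this.2]
  obtain ⟨-, hQu, hQv⟩ := hτ ρ hexp (fun q hq1 hq2 => by
    obtain ⟨h1, h2⟩ := hMo q hq1 hq2
    exact ⟨(Real.exp_le_exp.mpr (by linarith)).trans h1,
      h2.trans (Real.exp_le_exp.mpr (by linarith))⟩) θ (hθ.trans hτ1a)
  have e2 : 2 - 2 * θ = 2 * (1 - θ) := by ring
  rw [e2] at hQv
  have hQn : 0 ≤ QQ ρ θ (1 - θ) R R := ((hWBA ρ hexp θ (1 - θ) hθ1).1 R R).1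
  set η1 : ℝ := Real.sqrt (Real.exp (2 * ce ϑ (2 * τ) R) - 1) with hη1
  have hη1n : 0 ≤ η1 := Real.sqrt_nonneg _
  -- the size of `η1`
  have hce0 : 0 ≤ ce ϑ (2 * τ) R := by unfold ce; positivity
  have hce1 : ce ϑ (2 * τ) R ≤ 11 * s := by
    unfold ce
    have h1 : ϑ ^ 2 + 2 * (2 * τ) ≤ 5 * ϑ ^ 2 := by linarith
    have h2 : (ϑ ^ 2 + 2 * (2 * τ)) * ((R : ℝ) + 1) ≤ 5 * ϑ ^ 2 * (2 * (s ^ 3)⁻¹) :=
      mul_le_mul h1 hR2 (by positivity) (by positivity)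
    have h3 : 5 * ϑ ^ 2 * (2 * (s ^ 3)⁻¹) = 10 * s := by
      rw [hϑ]
      field_simp
      norm_num
    linarith
  have hη1sq : η1 ^ 2 ≤ 44 * s := by
    have h1 : 0 ≤ Real.exp (2 * ce ϑ (2 * τ) R) - 1 := by
      have := Real.add_one_le_exp (2 * ce ϑ (2 * τ) R)
      linarith
    rw [hη1, Real.sq_sqrt h1]
    have h2 := exp_sub_one_le (y := 2 * ce ϑ (2 * τ) R) (by linarith) (by linarith)
    linarith
  have h8 : (0 : ℝ) ≤ 8 * Real.pi := by positivity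
  have hη1b : η1 * Real.sqrt (8 * Real.pi) ≤ g / 2 := by
    rw [← pow_le_pow_iff_left₀ (by positivity) (by positivity) two_ne_zero, mul_pow,
      Real.sq_sqrt h8]
    have h1 : η1 ^ 2 * (8 * Real.pi) ≤ 44 * s * (8 * Real.pi) :=
      mul_le_mul_of_nonneg_right hη1sq h8
    have h2 : Real.pi < 3.15 := Real.pi_lt_d2
    have h3 : 44 * s * (8 * Real.pi) ≤ 44 * s * (8 * 3.15) :=
      mul_le_mul_of_nonneg_left (by linarith) (by positivity)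
    have h4 : (g / 2) ^ 2 = g ^ 2 / 4 := by ring
    rw [h4]
    norm_num at h3
    linarith
  set A : ℝ := 1 + g / 2 + η1 * Real.sqrt (8 * Real.pi) with hA
  have hA0 : 0 ≤ A := by positivity
  have hA1 : A ≤ 1 + g := by rw [hA]; linarith
  have hsq8 : Real.sqrt ϑ = Real.sqrt (ϑ / (8 * Real.pi)) * Real.sqrt (8 * Real.pi) := by
    rw [← Real.sqrt_mul (by positivity)]
    congr 1
    field_simp
  have hQ2 : Q2 ρ ϑ θ τ R ≤ (Real.sqrt (ϑ / (8 * Real.pi)) * A) ^ 2 := by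
    unfold Q2
    rw [← hη1]
    have h1 : Real.sqrt (QQ ρ θ (2 * (1 - θ)) R R) ≤ Real.sqrt ϑ := Real.sqrt_le_sqrt hQv
    have h2 : η1 * Real.sqrt (QQ ρ θ (2 * (1 - θ)) R R) ≤ η1 * Real.sqrt ϑ :=
      mul_le_mul_of_nonneg_left h1 hη1n
    have h3 : 0 ≤ η1 * Real.sqrt (QQ ρ θ (2 * (1 - θ)) R R) :=
      mul_nonneg hη1n (Real.sqrt_nonneg _)
    apply pow_le_pow_left₀ (by linarith)
    rw [hsq8] at h2
    have h4 : Real.sqrt (ϑ / (8 * Real.pi)) * A =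
        (1 + g / 2) * Real.sqrt (ϑ / (8 * Real.pi)) +
        η1 * (Real.sqrt (ϑ / (8 * Real.pi)) * Real.sqrt (8 * Real.pi)) := by
      rw [hA]; ring
    rw [h4]
    linarith
  exact (chx_alg hϑp (by linarith) (by linarith) (by linarith) hm0 hA0 hA1 hQ2 hρ0).trans hfin

end Pool.Agent.H73.EX
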