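import Pool.Agent.H98.EX.LTargets

/-!
# Row NLX of the board exa_modules (helper73)
-/

set_option autoImplicit false

open MeasureTheory ProbabilityTheory Filter Topology
open scoped ENNReal
open Pool.Agent.H98.EX

namespace Pool.Agent.H73.EX

lemma ev_small (C c : ℝ) (hc : 0 < c) : ∀ᶠ x in 𝓝[>] (0 : ℝ), C * x ≤ c := by
  have h : Tendsto (fun x : ℝ => C * x) (𝓝[>] 0) (𝓝 0) := by
    have h1 : Tendsto (fun x : ℝ => C * x) (𝓝 0) (𝓝 (C * 0)) := (continuous_const_mul C).tendsto 0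
    rw [mul_zero] at h1
    exact h1.mono_left nhdsWithin_le_nhds
  exact h.eventually_le_const hc

lemma tendsto_bX {c0 kl : ℝ} (hc : 0 < c0) (hk : 0 < kl) :
    Tendsto (fun x => bX c0 kl x) (𝓝[>] (0 : ℝ)) atTop := by
  have h1 : ∀ x, bX c0 kl x = (c0 / (2 * kl)) * x⁻¹ := by
    intro x
    unfold bX
    rw [mul_comm (2 * kl) x, ← div_div, div_right_comm, div_eq_mul_inv (c0 / (2 * kl))]
  simp_rw [h1]
  exact tendsto_inv_nhdsGT_zero.const_mul_atTop (by positivity)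

lemma tendsto_sq_exp {c : ℝ} (hc : 0 < c) :
    Tendsto (fun b : ℝ => b ^ 2 * Real.exp (-(c * b))) atTop (𝓝 0) := by
  have h1 : Tendsto (fun b : ℝ => c * b) atTop atTop := tendsto_id.const_mul_atTop hc
  have h2 := (Real.tendsto_pow_mul_exp_neg_atTop_nhds_zero 2).comp h1
  have h3 := h2.const_mul (1 / c ^ 2)
  rw [mul_zero] at h3
  refine h3.congr fun b => ?_
  simp only [Function.comp]
  field_simp

lemma tendsto_exp_lin {c : ℝ} (hc : 0 < c) (C : ℝ) :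
    Tendsto (fun b : ℝ => Real.exp (C - c * b)) atTop (𝓝 0) := by
  apply Real.tendsto_exp_atBot.comp
  have h1 : Tendsto (fun b : ℝ => c * b) atTop atTop := tendsto_id.const_mul_atTop hc
  exact tendsto_const_nhds.add_atBot (tendsto_neg_atTop_atBot.comp h1)

/-- the bound of `Pb - P0` -/
noncomputable def wB (ϑ η ζ C1 c1 b : ℝ) : ℝ :=
  η ^ (-(1 / 4) : ℝ) * (256 / ϑ) * (b ^ 2 * Real.exp (-(3 / 16 * b))) +
  Real.exp (0 - ζ / 16 * b) * (2 ^ 16 / ϑ ^ 2 + 256 / ϑ * (b ^ 2 * Real.exp (-(3 / 16 * b)))) +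
  2 * Real.exp (C1 - c1 * b)

lemma tendsto_wB {ζ c1 : ℝ} (ϑ η C1 : ℝ) (hζ : 0 < ζ) (hc1 : 0 < c1) :
    Tendsto (wB ϑ η ζ C1 c1) atTop (𝓝 0) := by
  have t1 := tendsto_sq_exp (c := 3 / 16) (by norm_num)
  have t2 := tendsto_exp_lin (c := ζ / 16) (by positivity) 0
  have t3 := tendsto_exp_lin hc1 C1
  have h := ((t1.const_mul (η ^ (-(1 / 4) : ℝ) * (256 / ϑ))).add
    (t2.mul ((t1.const_mul (256 / ϑ)).const_add (2 ^ 16 / ϑ ^ 2)))).add (t3.const_mul 2)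
  simp only [mul_zero, add_zero, zero_mul] at h
  exact h

lemma cc_ge {r ϑ : ℝ} (hr : r ≤ 1 / 64) (hϑ0 : 0 < ϑ) (hϑ : ϑ ≤ 1 / 2 ^ 12) : 1 ≤ cc r ϑ := by
  have h1 : ϑ ^ (1 / 4 : ℝ) ≤ 1 / 8 := by
    have h2 : ϑ ^ (1 / 4 : ℝ) ≤ ((1 / 8 : ℝ) ^ (4 : ℕ)) ^ (1 / 4 : ℝ) :=
      Real.rpow_le_rpow hϑ0.le (by norm_num at hϑ ⊢; linarith) (by norm_num)
    have h3 : ((1 / 8 : ℝ) ^ (4 : ℕ)) ^ (1 / 4 : ℝ) = 1 / 8 := by
      rw [← Real.rpow_natCast, ← Real.rpow_mul (by norm_num)]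
      norm_num
    rwa [h3] at h2
  have h4 : 5 / 8 ≤ Real.exp (-(3 * ϑ ^ (1 / 4 : ℝ))) := by
    have := Real.add_one_le_exp (-(3 * ϑ ^ (1 / 4 : ℝ)))
    linarith
  unfold cc
  nlinarith

lemma rpow_half_le {c α : ℝ} (hc : 1 ≤ c) (h0 : 0 ≤ α) (h1 : α ≤ 1) :
    Real.sqrt c ≤ c ^ (1 / (1 + α)) := by
  rw [Real.sqrt_eq_rpow]
  apply Real.rpow_le_rpow_of_exponent_le hc
  rw [div_le_div_iff₀ (by norm_num) (by linarith)]
  linarith

/-- the exponent of the last term -/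
lemma exponent_le {kl ζ ϑ b x τ CD : ℝ} {D J : ℕ} (hkl : 0 < kl) (hζ : 0 < ζ) (hϑ : 0 < ϑ)
    (hx : 0 < x) (hx1 : x ≤ 1) (_hτ0 : 0 ≤ τ) (hτ : τ ≤ x ^ 4)
    (hD : (D : ℝ) ≤ 4 * b * ((J : ℝ) + 1) / ϑ + 1) (hDx : D * x ≤ CD) :
    -(ζ / (16 * ((J : ℝ) + 1)) * (b * ζ / 4)) + D * (ϑ * (ζ / (16 * ((J : ℝ) + 1)) *
      (kl * x + x ^ 4) + (ζ / (16 * ((J : ℝ) + 1))) ^ 2 / 2) + 2 * τ) ≤
    (ϑ * (ζ / (16 * ((J : ℝ) + 1))) ^ 2 / 2 + CD * ϑ * (ζ / (16 * ((J : ℝ) + 1))) * (kl + 1) +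
      2 * CD) - ζ ^ 2 / (128 * ((J : ℝ) + 1)) * b := by
  have hJ : (0 : ℝ) < (J : ℝ) + 1 := by positivity
  set s : ℝ := ζ / (16 * ((J : ℝ) + 1)) with hs
  have hs0 : 0 < s := by positivity
  have hx3 : x ^ 3 ≤ 1 := pow_le_one₀ hx.le hx1
  have hx4 : x ^ 4 = x ^ 3 * x := by ring
  have hD0 : (0 : ℝ) ≤ D := Nat.cast_nonneg _
  have hCD : 0 ≤ CD := le_trans (by positivity) hDx
  have h1 : (D : ℝ) * (ϑ * (s ^ 2 / 2)) ≤ ζ ^ 2 / (128 * ((J : ℝ) + 1)) * b + ϑ * s ^ 2 / 2 := by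
    have h2 := mul_le_mul_of_nonneg_right hD (show 0 ≤ ϑ * (s ^ 2 / 2) by positivity)
    refine h2.trans (le_of_eq ?_)
    rw [hs]
    field_simp
    ring
  have h3 : (D : ℝ) * (ϑ * (s * (kl * x + x ^ 4))) ≤ CD * ϑ * s * (kl + 1) := by
    have e : (D : ℝ) * (ϑ * (s * (kl * x + x ^ 4))) = (D * x) * (ϑ * s * (kl + x ^ 3)) := by
      rw [hx4]; ring
    rw [e]
    calc (D * x) * (ϑ * s * (kl + x ^ 3)) ≤ CD * (ϑ * s * (kl + x ^ 3)) :=
          mul_le_mul_of_nonneg_right hDx (by positivity)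
      _ ≤ CD * (ϑ * s * (kl + 1)) := by
          apply mul_le_mul_of_nonneg_left _ hCD
          apply mul_le_mul_of_nonneg_left _ (by positivity)
          linarith
      _ = CD * ϑ * s * (kl + 1) := by ring
  have h4 : (D : ℝ) * (2 * τ) ≤ 2 * CD := by
    have h5 : τ ≤ x := by
      rw [hx4] at hτ
      nlinarith
    have h6 := mul_le_mul_of_nonneg_left h5 hD0
    linarith
  have h7 : s * (b * ζ / 4) = 2 * (ζ ^ 2 / (128 * ((J : ℝ) + 1)) * b) := by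
    rw [hs]
    field_simp
    ring
  have h8 : (D : ℝ) * (ϑ * (s * (kl * x + x ^ 4) + s ^ 2 / 2) + 2 * τ) =
      D * (ϑ * (s * (kl * x + x ^ 4))) + D * (ϑ * (s ^ 2 / 2)) + D * (2 * τ) := by ring
  rw [h8, h7]
  linarith

/-- `Pb` is at most `P0` plus a small term -/
lemma Pb_le {kl ζ η ϑ b x τ CD : ℝ} {n R D J : ℕ} (hkl : 0 < kl) (hζ : 0 < ζ) (hη : 0 < η)
    (hϑ : 0 < ϑ) (hx : 0 < x) (hx1 : x ≤ 1) (hτ0 : 0 ≤ τ) (hτ : τ ≤ x ^ 4)
    (hD : (D : ℝ) ≤ 4 * b * ((J : ℝ) + 1) / ϑ + 1) (hDx : D * x ≤ CD)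
    (hn : (n : ℝ) ≤ 2 * b ^ 2) :
    Pb ϑ b ζ η (kl * x) (x ^ 4) τ (ζ / (16 * ((J : ℝ) + 1))) n R D ≤ P0 ϑ η R +
      wB ϑ η ζ (ϑ * (ζ / (16 * ((J : ℝ) + 1))) ^ 2 / 2 +
        CD * ϑ * (ζ / (16 * ((J : ℝ) + 1))) * (kl + 1) + 2 * CD)
        (ζ ^ 2 / (128 * ((J : ℝ) + 1))) b := by
  have h1 := exponent_le (J := J) hkl hζ hϑ hx hx1 hτ0 hτ hD hDx
  have h2 := Real.exp_le_exp.mpr h1
  have e1 : Real.exp (-(3 * b / 16)) = Real.exp (-(3 / 16 * b)) := by congr 1; ring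
  have e2 : Real.exp (-(b * ζ / 16)) = Real.exp (0 - ζ / 16 * b) := by congr 1; ring
  have h3 : 128 * (n : ℝ) / ϑ * Real.exp (-(3 / 16 * b)) ≤
      256 / ϑ * (b ^ 2 * Real.exp (-(3 / 16 * b))) := by
    have h4 : 128 * (n : ℝ) / ϑ ≤ 256 / ϑ * b ^ 2 := by
      rw [div_mul_eq_mul_div]
      apply div_le_div_of_nonneg_right _ hϑ.le
      linarith
    have h5 := mul_le_mul_of_nonneg_right h4 (Real.exp_pos (-(3 / 16 * b))).le
    linarith
  have hη4 : 0 < η ^ (-(1 / 4) : ℝ) := Real.rpow_pos_of_pos hη _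
  unfold Pb P0 wB
  rw [e1, e2]
  have h6 := mul_le_mul_of_nonneg_left h3 hη4.le
  have h7 := mul_le_mul_of_nonneg_left h3 (Real.exp_pos (0 - ζ / 16 * b)).le
  nlinarith

lemma four_sq_le_exp {y : ℝ} (hy : 0 ≤ y) : 4 * y ^ 2 ≤ Real.exp (4 * y) := by
  have h := Real.quadratic_le_exp_of_nonneg (x := 4 * y) (by positivity)
  nlinarith

/-- the last inequality -/
lemma final_ineq {kl c0 e ζ η ϑ x b τ cα A κ G G0 j n m D : ℝ} (hb0 : 0 < b)
    (hϑ : 0 < ϑ) (hζ1 : ζ ≤ 1 / 4) (hn : 0 ≤ n) (hkb : kl * x * b = c0 / 2) (hκ0 : 0 < κ)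
    (hκ1 : κ ≤ 1 / 4) (hG0 : 0 < G0)
    (hG : (1 - κ) * G0 ≤ G) (hm : (1 - κ) * n ≤ m)
    (hq : 1 ≤ κ * (4 * b * (1 - 2 * ζ) / ϑ)) (hexp : 2 * x ^ 4 * c0 * (j + 1) + τ * D ≤ κ)
    (hA : 0 < A) (hAc : A ≤ cα / (1 + η))
    (hS : (1 - 4 * κ) * (A * (4 * (1 - 2 * ζ) / ϑ) * G0) = e * (Real.sqrt 2 / (2 * Real.pi))) :
    n * (Real.sqrt 2 / (2 * Real.pi) * b * (e * Real.exp (-(c0 * (j + 1))))) ≤
    cα / (1 + η) * (m * (4 * b * (1 - 2 * ζ) / ϑ - 1)) *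
    Real.exp (-((1 / 2 + x ^ 4) * (kl * x) * (4 * b * (j + 1))) - τ * D) * G := by
  have hκ : 0 < 1 - κ := by linarith
  set q : ℝ := 4 * b * (1 - 2 * ζ) / ϑ with hqd
  have hq0 : 0 < q := by
    rw [hqd]
    apply div_pos _ hϑ
    have : 0 < 1 - 2 * ζ := by linarith
    positivity
  set X : ℝ := Real.exp (-(c0 * (j + 1))) with hX
  have hX0 : 0 < X := Real.exp_pos _
  have e1 : Real.exp (-((1 / 2 + x ^ 4) * (kl * x) * (4 * b * (j + 1))) - τ * D) =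
      X * Real.exp (-(2 * x ^ 4 * c0 * (j + 1) + τ * D)) := by
    rw [hX, ← Real.exp_add]
    congr 1
    have e2 : (1 / 2 + x ^ 4) * (kl * x) * (4 * b * (j + 1)) =
        (1 / 2 + x ^ 4) * (kl * x * b) * (4 * (j + 1)) := by ring
    rw [e2, hkb]
    ring
  have e3 : 1 - κ ≤ Real.exp (-(2 * x ^ 4 * c0 * (j + 1) + τ * D)) := by
    have := Real.add_one_le_exp (-(2 * x ^ 4 * c0 * (j + 1) + τ * D))
    linarith
  rw [e1]
  have h1 : (1 - κ) * n * ((1 - κ) * q) ≤ m * (q - 1) :=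
    mul_le_mul hm (by linarith) (by positivity) (le_trans (by positivity) hm)
  have h2 : A * ((1 - κ) * n * ((1 - κ) * q)) ≤ cα / (1 + η) * (m * (q - 1)) :=
    mul_le_mul hAc h1 (by positivity) (hA.le.trans hAc)
  have h3 : X * (1 - κ) ≤ X * Real.exp (-(2 * x ^ 4 * c0 * (j + 1) + τ * D)) :=
    mul_le_mul_of_nonneg_left e3 hX0.le
  have h4 : A * ((1 - κ) * n * ((1 - κ) * q)) * (X * (1 - κ)) ≤
      cα / (1 + η) * (m * (q - 1)) * (X * Real.exp (-(2 * x ^ 4 * c0 * (j + 1) + τ * D))) :=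
    mul_le_mul h2 h3 (by positivity) (le_trans (by positivity) h2)
  have h5 : A * ((1 - κ) * n * ((1 - κ) * q)) * (X * (1 - κ)) * ((1 - κ) * G0) ≤
      cα / (1 + η) * (m * (q - 1)) * (X * Real.exp (-(2 * x ^ 4 * c0 * (j + 1) + τ * D))) * G :=
    mul_le_mul h4 hG (by positivity) (le_trans (by positivity) h4)
  refine le_trans ?_ h5
  have h6 : 1 - 4 * κ ≤ (1 - κ) ^ 4 := by
    have := one_add_mul_le_pow (a := -κ) (by linarith) 4
    push_cast at this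
    rw [← sub_eq_add_neg] at this
    linarith
  have h7 : A * ((1 - κ) * n * ((1 - κ) * q)) * (X * (1 - κ)) * ((1 - κ) * G0) =
      (1 - κ) ^ 4 * (n * b * X * (A * (4 * (1 - 2 * ζ) / ϑ) * G0)) := by
    rw [hqd]
    ring
  have h8 : n * (Real.sqrt 2 / (2 * Real.pi) * b * (e * X)) =
      (1 - 4 * κ) * (n * b * X * (A * (4 * (1 - 2 * ζ) / ϑ) * G0)) := by
    have : n * (Real.sqrt 2 / (2 * Real.pi) * b * (e * X)) =
        n * b * X * (e * (Real.sqrt 2 / (2 * Real.pi))) := by ring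
    rw [this, ← hS]
    ring
  rw [h7, h8]
  apply mul_le_mul_of_nonneg_right h6
  have : 0 < 1 - 2 * ζ := by linarith
  positivity

theorem pf_NLX : T_NLX := by
  intro kl c0 e ζ η ϑ r τ1 R Q J hkl hc0 he hζ hζ1 hη hη1 hϑ hϑ1 hr hr1 hτ1 hmain
  have hpi := Real.pi_pos
  have hJ : (0 : ℝ) < (J : ℝ) + 1 := by positivity
  have hs2 : 0 < Real.sqrt 2 := Real.sqrt_pos.mpr (by norm_num)
  have hcc1 : 1 ≤ cc r ϑ := cc_ge hr1 hϑ hϑ1
  have h2ζ : 1 / 2 ≤ 1 - 2 * ζ := by linarith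
  set G0 : ℝ := (1 - η) ^ 2 * (ϑ / (8 * Real.pi)) - Real.sqrt (P0 ϑ η R) * ϑ with hG0
  set A : ℝ := Real.sqrt (cc r ϑ) / (1 + η) with hA
  set E : ℝ := e * (Real.sqrt 2 / (2 * Real.pi)) with hE
  have hE0 : 0 < E := by positivity
  have hA0 : 0 < A := div_pos (Real.sqrt_pos.mpr (by linarith)) (by linarith)
  have hB0 : 0 < 4 * (1 - 2 * ζ) / ϑ := div_pos (by linarith) hϑ
  have hG0p : 0 < G0 := by
    by_contra hneg
    have h1 : A * (4 * (1 - 2 * ζ) / ϑ) * G0 ≤ 0 :=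
      mul_nonpos_of_nonneg_of_nonpos (by positivity) (not_lt.mp hneg)
    linarith
  set S : ℝ := A * (4 * (1 - 2 * ζ) / ϑ) * G0 with hS
  have hS0 : 0 < S := by positivity
  set κ : ℝ := (1 - E / S) / 4 with hκ
  have hES : E / S < 1 := (div_lt_one hS0).mpr hmain
  have hES0 : 0 < E / S := div_pos hE0 hS0
  have hκ0 : 0 < κ := by rw [hκ]; linarith
  have hκ1 : κ ≤ 1 / 4 := by rw [hκ]; linarith
  have hκS : (1 - 4 * κ) * S = E := by
    rw [hκ]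
    field_simp
    ring
  set CD : ℝ := 2 * c0 * ((J : ℝ) + 1) / (kl * ϑ) + 1 with hCD
  have hCD0 : 0 < CD := by positivity
  set Cn : ℝ := c0 ^ 2 / (4 * kl ^ 2) + 1 with hCn
  have hCn0 : 0 < Cn := by positivity
  set C1 : ℝ := ϑ * (ζ / (16 * ((J : ℝ) + 1))) ^ 2 / 2 +
    CD * ϑ * (ζ / (16 * ((J : ℝ) + 1))) * (kl + 1) + 2 * CD with hC1
  set c1 : ℝ := ζ ^ 2 / (128 * ((J : ℝ) + 1)) with hc1
  have hc10 : 0 < c1 := by positivity
  have hb := tendsto_bX hc0 hkl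
  have evb1 := hb.eventually (eventually_ge_atTop (1 : ℝ))
  have evb2 := hb.eventually (eventually_ge_atTop (8 / ζ))
  have evb3 := hb.eventually (eventually_ge_atTop ((2 * (R : ℝ) + 1) * ϑ / 12))
  have evb4 := hb.eventually (eventually_ge_atTop (ϑ / (2 * κ)))
  have evb5 := hb.eventually
    (eventually_ge_atTop ((2 * (R : ℝ) + 4 * ((J : ℝ) + 1) / ϑ + 1) / κ))
  have evb6 := hb.eventually ((tendsto_sq_exp (c := 1 / 4) (by norm_num)).eventually_le_const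
    (show (0 : ℝ) < 1 / 2 by norm_num))
  have evb7 := hb.eventually ((tendsto_wB ϑ η C1 hζ hc10).eventually_le_const
    (show 0 < (κ * G0 / ϑ) ^ 2 by positivity))
  have ev1 := ev_small 1 1 one_pos
  have ev2 := ev_small kl (1 / 64) (by norm_num)
  have ev3 := ev_small 1 (ϑ / 256) (by positivity)
  have ev4 := ev_small (2 ^ 9 * CD) r hr
  have ev5 := ev_small (2 * CD) (ϑ / 32) (by positivity)
  have ev6 := ev_small (4 * CD) 1 one_pos
  have ev7 := ev_small (5 * Cn * CD) 1 one_pos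
  have ev8 := ev_small (ϑ * Q * kl + 1) τ1 hτ1
  have ev9 := ev_small (ϑ * kl + 1) τ1 hτ1
  have ev10 := ev_small (2 * c0 * ((J : ℝ) + 1) + CD) κ hκ0
  obtain ⟨x0, hx0, hx0'⟩ := (nhdsGT_basis (0 : ℝ)).eventually_iff.mp
    (evb1.and (evb2.and (evb3.and (evb4.and (evb5.and (evb6.and (evb7.and (ev1.and (ev2.and
      (ev3.and (ev4.and (ev5.and (ev6.and (ev7.and (ev8.and (ev9.and ev10))))))))))))))))
  refine ⟨4, x0, hx0, ?_⟩
  intro x hx hxx α τ hα0 hα1 hτ0 hτ n D hn hD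
  obtain ⟨b1, b2, b3, b4, b5, b6, b7, h1, h2, h3, h4, h5, h6, h7, h8, h9, h10⟩ :=
    hx0' ⟨hx, hxx⟩
  have hbx : kl * x * bX c0 kl x = c0 / 2 := by
    unfold bX
    field_simp
  have haX : aX c0 kl x = Real.sqrt 2 / (2 * Real.pi) * bX c0 kl x := rfl
  rw [haX]
  set b : ℝ := bX c0 kl x with hbdef
  have hbval : b * x = c0 / (2 * kl) := by
    rw [eq_div_iff (by positivity)]
    linarith only [hbx]
  have hb0 : 0 < b := by linarith only [b1]
  rw [one_mul] at h1 h3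
  have hx4 : x ^ 4 ≤ x := pow_le_of_le_one hx.le h1 (by norm_num)
  have hx4' : x ^ 4 ≤ x ^ 2 := pow_le_pow_of_le_one hx.le h1 (by norm_num)
  have hsq : Real.sqrt (x ^ 4) = x ^ 2 := by
    rw [show x ^ 4 = (x ^ 2) ^ 2 by ring]
    exact Real.sqrt_sq (by positivity)
  have hD1 : 4 * b * ((J : ℝ) + 1) / ϑ ≤ D := by rw [hD]; exact Nat.le_ceil _
  have hD2 : (D : ℝ) ≤ 4 * b * ((J : ℝ) + 1) / ϑ + 1 := by
    rw [hD]
    exact (Nat.ceil_lt_add_one (by positivity)).le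
  have hDx : (D : ℝ) * x ≤ CD := by
    have h11 := mul_le_mul_of_nonneg_right hD2 hx.le
    have h12 : (4 * b * ((J : ℝ) + 1) / ϑ + 1) * x = 4 * (b * x) * ((J : ℝ) + 1) / ϑ + x := by
      ring
    rw [h12, hbval] at h11
    have h13 : 4 * (c0 / (2 * kl)) * ((J : ℝ) + 1) / ϑ = 2 * c0 * ((J : ℝ) + 1) / (kl * ϑ) := by
      field_simp
      ring
    rw [h13] at h11
    linarith only [h11, h1, hCD]
  have hn1 : b ^ 2 ≤ n := by rw [hn]; exact Nat.le_ceil _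
  have hn2 : (n : ℝ) ≤ b ^ 2 + 1 := by
    rw [hn]
    exact (Nat.ceil_lt_add_one (by positivity)).le
  have hbsq : 1 ≤ b ^ 2 := one_le_pow₀ b1
  have hn3 : (n : ℝ) ≤ 2 * b ^ 2 := by linarith only [hn2, hbsq]
  have hnx : (n : ℝ) * x ^ 2 ≤ Cn := by
    have h11 := mul_le_mul_of_nonneg_right hn2 (sq_nonneg x)
    have h12 : (b ^ 2 + 1) * x ^ 2 = (b * x) ^ 2 + x ^ 2 := by ring
    rw [h12, hbval] at h11
    have h13 : x ^ 2 ≤ 1 := pow_le_one₀ hx.le h1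
    have h14 : (c0 / (2 * kl)) ^ 2 = c0 ^ 2 / (4 * kl ^ 2) := by
      rw [div_pow]; ring
    rw [h14] at h11
    linarith only [h11, h13, hCn]
  have hD0 : (0 : ℝ) ≤ D := Nat.cast_nonneg _
  have hn0 : (0 : ℝ) ≤ n := Nat.cast_nonneg _
  have hRn : 2 * (R : ℝ) + D ≤ κ * n := by
    rw [div_le_iff₀ hκ0] at b5
    have h11 : 2 * (R : ℝ) + (4 * b * ((J : ℝ) + 1) / ϑ + 1) ≤
        (2 * (R : ℝ) + 4 * ((J : ℝ) + 1) / ϑ + 1) * b := by
      have e1 : 4 * b * ((J : ℝ) + 1) / ϑ = 4 * ((J : ℝ) + 1) / ϑ * b := by ring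
      have e2 : (2 * (R : ℝ) + 4 * ((J : ℝ) + 1) / ϑ + 1) * b =
          2 * (R : ℝ) * b + 4 * ((J : ℝ) + 1) / ϑ * b + b := by ring
      have hR0 : 2 * (R : ℝ) ≤ 2 * (R : ℝ) * b := le_mul_of_one_le_right (by positivity) b1
      rw [e1, e2]
      linarith only [hR0, b1]
    have h12 : (2 * (R : ℝ) + 4 * ((J : ℝ) + 1) / ϑ + 1) * b ≤ b * κ * b :=
      mul_le_mul_of_nonneg_right b5 hb0.le
    have h13 : κ * b ^ 2 ≤ κ * n := mul_le_mul_of_nonneg_left hn1 hκ0.le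
    have e3 : b * κ * b = κ * b ^ 2 := by ring
    rw [e3] at h12
    linarith only [hD2, h11, h12, h13]
  have hPb := Pb_le (R := R) hkl hζ hη hϑ hx h1 hτ0 hτ hD2 hDx hn3
  have hG : (1 - κ) * G0 ≤ (1 - η) ^ 2 * (ϑ / (8 * Real.pi)) -
      Real.sqrt (Pb ϑ b ζ η (kl * x) (x ^ 4) τ (ζ / (16 * ((J : ℝ) + 1))) n R D) * ϑ := by
    have h11 : Real.sqrt (Pb ϑ b ζ η (kl * x) (x ^ 4) τ (ζ / (16 * ((J : ℝ) + 1))) n R D) ≤
        Real.sqrt (P0 ϑ η R) + κ * G0 / ϑ := by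
      have hP0 : 0 ≤ P0 ϑ η R := by
        unfold P0
        positivity
      rw [Real.sqrt_le_iff]
      refine ⟨by positivity, ?_⟩
      have h12 : (Real.sqrt (P0 ϑ η R) + κ * G0 / ϑ) ^ 2 =
          P0 ϑ η R + 2 * (Real.sqrt (P0 ϑ η R) * (κ * G0 / ϑ)) + (κ * G0 / ϑ) ^ 2 := by
        rw [add_sq, Real.sq_sqrt hP0]
        ring
      rw [h12]
      have h13 : 0 ≤ Real.sqrt (P0 ϑ η R) * (κ * G0 / ϑ) := by positivity
      linarith only [hPb, b7, h13]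
    have h14 := mul_le_mul_of_nonneg_right h11 hϑ.le
    have h15 : (Real.sqrt (P0 ϑ η R) + κ * G0 / ϑ) * ϑ = Real.sqrt (P0 ϑ η R) * ϑ + κ * G0 := by
      field_simp
    rw [h15] at h14
    linarith only [h14, hG0]
  have hq : 1 ≤ κ * (4 * b * (1 - 2 * ζ) / ϑ) := by
    have h11 : ϑ / (2 * κ) * (2 * κ) = ϑ := by field_simp
    have h12 : ϑ ≤ b * (2 * κ) := by
      have := mul_le_mul_of_nonneg_right b4 (show 0 ≤ 2 * κ by positivity)
      linarith only [this, h11]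
    have h13 : κ * (4 * b) * (1 / 2) ≤ κ * (4 * b) * (1 - 2 * ζ) :=
      mul_le_mul_of_nonneg_left h2ζ (by positivity)
    have e1 : κ * (4 * b * (1 - 2 * ζ)) = κ * (4 * b) * (1 - 2 * ζ) := by ring
    rw [← mul_div_assoc, le_div_iff₀ hϑ, one_mul, e1]
    linarith only [h13, h12]
  have hx4D : τ * D ≤ x * CD := by
    have h11 : τ * D ≤ x ^ 4 * D := mul_le_mul_of_nonneg_right hτ hD0
    have h12 : x ^ 4 * D = x ^ 3 * (D * x) := by ring
    have h13 : x ^ 3 ≤ x := pow_le_of_le_one hx.le h1 (by norm_num)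
    have h14 : x ^ 3 * (D * x) ≤ x * CD :=
      mul_le_mul h13 hDx (by positivity) hx.le
    linarith only [h11, h12, h14]
  refine ⟨h2, by linarith only [hτ, hx4, h3], hb0, ?_, ?_, ?_, ?_, ?_, ?_, ?_, ?_, ?_, ?_, ?_, ?_,
    ?_, ?_, ?_⟩
  · have := mul_le_mul_of_nonneg_right b2 hζ.le
    rwa [div_mul_cancel₀ _ hζ.ne'] at this
  · rw [le_div_iff₀ hϑ]
    linarith only [b3]
  · rw [hsq]
    have h11 : 2 ^ 9 * x ^ 2 * (D : ℝ) = 2 ^ 9 * (D * x) * x := by ring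
    rw [h11]
    have h12 : 2 ^ 9 * ((D : ℝ) * x) * x ≤ 2 ^ 9 * CD * x := by
      apply mul_le_mul_of_nonneg_right _ hx.le
      linarith only [hDx]
    linarith only [h12, h4]
  · rw [hsq]
    have h11 : (D : ℝ) * (τ + x ^ 2) ≤ D * (2 * x ^ 2) :=
      mul_le_mul_of_nonneg_left (by linarith only [hτ, hx4']) hD0
    have h12 : (D : ℝ) * (2 * x ^ 2) = 2 * (D * x) * x := by ring
    have h13 : 2 * ((D : ℝ) * x) * x ≤ 2 * CD * x := by
      apply mul_le_mul_of_nonneg_right _ hx.le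
      linarith only [hDx]
    linarith only [h11, h12, h13, h5]
  · have h10 : κ * (n : ℝ) ≤ n := mul_le_of_le_one_left hn0 (by linarith only [hκ1])
    have h11 : ((2 * R + D : ℕ) : ℝ) ≤ n := by
      push_cast
      linarith only [h10, hRn]
    exact_mod_cast h11
  · have h11 : 0 ≤ 4 * b * (1 - 2 * ζ) / ϑ := by
      apply div_nonneg _ hϑ.le
      have : 0 ≤ 1 - 2 * ζ := by linarith only [h2ζ]
      positivity
    have h12 := mul_le_of_le_one_left h11 (show κ ≤ 1 by linarith only [hκ1])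
    linarith only [hq, h12]
  · have h11 : (1 : ℝ) ≤ n := by linarith only [hbsq, hn1]
    exact_mod_cast h11
  · have h11 : Real.exp (1 / 4 * b) * (b ^ 2 * Real.exp (-(1 / 4 * b))) = b ^ 2 := by
      rw [mul_comm, mul_assoc, ← Real.exp_add]
      simp
    have h12 := mul_le_mul_of_nonneg_left b6 (Real.exp_pos (1 / 4 * b)).le
    rw [h11] at h12
    have h13 : Real.exp (b / 4) = Real.exp (1 / 4 * b) := by congr 1; ring
    rw [h13]
    linarith only [h12, hn3]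
  · -- `4 D ≤ x ^ (-4)`
    have hinv : 1 ≤ 1 / x := by rw [le_div_iff₀ hx]; linarith only [h1]
    have h11 : (1 / x) ^ 2 ≤ (1 / x) ^ 4 := pow_le_pow_right₀ hinv (by norm_num)
    refine le_trans ?_ h11
    rw [div_pow, one_pow, le_div_iff₀ (by positivity)]
    have h12 : 4 * (D : ℝ) * x ^ 2 = 4 * (D * x) * x := by ring
    rw [h12]
    have h13 : 4 * ((D : ℝ) * x) * x ≤ 4 * CD * x := by
      apply mul_le_mul_of_nonneg_right _ hx.le
      linarith only [hDx]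
    linarith only [h13, h6]
  · -- the exponential bound
    have hy : 0 ≤ (n : ℝ) * D := by positivity
    have h11 : 4 * ((n : ℝ) * D) ^ 2 ≤ Real.exp (4 * ((n : ℝ) * D)) := four_sq_le_exp hy
    have h13 : (D : ℝ) ≤ n * D := le_mul_of_one_le_left hD0 (by linarith only [hbsq, hn1])
    calc 4 * ((n : ℝ) * D) ^ 2 * Real.exp D ≤
          Real.exp (4 * ((n : ℝ) * D)) * Real.exp (n * D) :=
          mul_le_mul h11 (Real.exp_le_exp.mpr h13) (Real.exp_pos _).le (Real.exp_pos _).le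
      _ = Real.exp (5 * ((n : ℝ) * D)) := by rw [← Real.exp_add]; congr 1; ring
      _ ≤ Real.exp ((1 / x) ^ 4) := by
          apply Real.exp_le_exp.mpr
          rw [div_pow, one_pow, le_div_iff₀ (by positivity)]
          have h14 : 5 * ((n : ℝ) * D) * x ^ 4 = 5 * ((n * x ^ 2) * (D * x)) * x := by ring
          rw [h14]
          have h15 : (n * x ^ 2) * (D * x) ≤ Cn * CD :=
            mul_le_mul hnx hDx (by positivity) hCn0.le
          have h16 : 5 * ((n * x ^ 2) * (D * x)) * x ≤ 5 * (Cn * CD) * x := by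
            apply mul_le_mul_of_nonneg_right _ hx.le
            linarith only [h15]
          linarith only [h16, h7]
  · have e1 : ϑ * Q * (kl * x) = ϑ * Q * kl * x := by ring
    rw [e1]
    linarith only [h8, hτ, hx4]
  · have e1 : ϑ * (kl * x) = ϑ * kl * x := by ring
    rw [e1]
    linarith only [h9, hτ, hx4]
  · have hα2 : 0 ≤ α := by linarith only [hα0, hx4, h1]
    have e1 : 1 / (1 + α) - 1 / 2 = (1 - α) / (2 * (1 + α)) := by
      field_simp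
      ring
    have hx9 : x ≤ τ1 := by
      have : 0 ≤ ϑ * kl * x := by positivity
      linarith only [this, h9]
    rw [e1, abs_of_nonneg (div_nonneg (by linarith only [hα1]) (by linarith only [hα2]))]
    have h11 : (1 - α) / (2 * (1 + α)) ≤ 1 - α :=
      div_le_self (by linarith only [hα1]) (by linarith only [hα2])
    linarith only [h11, hα0, hx4, hx9]
  · have : 0 < (1 - κ) * G0 := mul_pos (by linarith only [hκ1]) hG0p
    linarith only [this, hG]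
  · intro j _ hjJ
    have hjJ' : (j : ℝ) ≤ J := by exact_mod_cast hjJ
    refine final_ineq (A := A) (κ := κ) (G0 := G0) hb0 hϑ hζ1 hn0 hbx
      hκ0 hκ1 hG0p hG (by linarith only [hRn]) hq ?_ hA0 ?_ hκS
    · have h11 : 2 * x ^ 4 * c0 * ((j : ℝ) + 1) ≤ 2 * x * c0 * ((J : ℝ) + 1) := by
        apply mul_le_mul _ (by linarith only [hjJ']) (by positivity) (by positivity)
        apply mul_le_mul_of_nonneg_right _ hc0.le
        linarith only [hx4]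
      linarith only [h11, hx4D, h10]
    · rw [hA]
      apply div_le_div_of_nonneg_right _ (by linarith only [hη])
      exact rpow_half_le hcc1 (by linarith only [hα0, hx4, h1]) hα1

end Pool.Agent.H73.EX
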